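import Pool.Agent.MP_c1891a_nt.G43.Spec
import Pool.Agent.MP_c1891a_nt.H77.Near
import Pool.Agent.MP_c1891a_nt.H34.TwoA
import Pool.Agent.MP_c1891a_nt.H41.Field
import Pool.Agent.MP_c1891a_nt.H53.NormP
import Pool.Agent.MP_c1891a_nt.H19.LV

/-
A small value gives a root nearby, and this root is a root of a second sum with a small value.
-/

namespace Pool.Agent.MP_c1891a_nt.G43

open Finset Polynomial Module H43

section

variable {ι : Type} (I : Finset ι) (c k a : ι → ℤ)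

/-- the shift of the exponents. -/
def nearN_A : ℕ := I.sup fun i => (a i).natAbs

/-- the shifted exponents. -/
def nearN_e (i : ι) : ℕ := ((nearN_A I a : ℤ) + a i).toNat

/-- the polynomial. -/
noncomputable def nearN_F {F : Type} [Field F] (w : F) : F[X] :=
  ∑ i ∈ I, C ((c i : F) * w ^ k i) * X ^ nearN_e I a i

/-- the height. -/
def nearN_H : ℕ := ∑ i ∈ I, (c i).natAbs

theorem nearN_abs {i : ι} (hi : i ∈ I) : (a i).natAbs ≤ nearN_A I a :=
  Finset.le_sup (f := fun i => (a i).natAbs) hi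

theorem nearN_e_cast {i : ι} (hi : i ∈ I) : (nearN_e I a i : ℤ) = nearN_A I a + a i := by
  have := nearN_abs I a hi
  rw [nearN_e, Int.toNat_of_nonneg (by omega)]

theorem nearN_e_le {i : ι} (hi : i ∈ I) : nearN_e I a i ≤ 2 * nearN_A I a := by
  have := nearN_abs I a hi
  have := nearN_e_cast I a hi
  omega

theorem nearN_sum (ω : ℂ) {α : ℂ} (hα : α ≠ 0) :
    ∑ i ∈ I, (c i : ℂ) * ω ^ k i * α ^ nearN_e I a i = α ^ nearN_A I a * fn I c k a ω α := by
  rw [fn, mul_sum]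
  refine sum_congr rfl fun i hi => ?_
  rw [← zpow_natCast α (nearN_e I a i), nearN_e_cast I a hi, zpow_add₀ hα, zpow_natCast]
  ring

theorem nearN_eval (ω : ℂ) {α : ℂ} (hα : α ≠ 0) :
    (nearN_F I c k a ω).eval α = α ^ nearN_A I a * fn I c k a ω α := by
  rw [← nearN_sum I c k a ω hα]
  simp [nearN_F, eval_finsetSum]

theorem nearN_map {F G : Type} [Field F] [Field G] (σ : F →+* G) (w : F) :
    (nearN_F I c k a w).map σ = nearN_F I c k a (σ w) := by
  simp [nearN_F, Polynomial.map_sum]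

theorem nearN_deg {F : Type} [Field F] (w : F) :
    (nearN_F I c k a w).natDegree ≤ 2 * nearN_A I a :=
  natDegree_sum_le_of_forall_le _ _ fun _ h =>
    (natDegree_C_mul_X_pow_le _ _).trans (nearN_e_le I a h)

theorem nearN_coeff {F : Type} [Field F] (w : F) (n : ℕ) : (nearN_F I c k a w).coeff n =
    ∑ i ∈ I, if n = nearN_e I a i then (c i : F) * w ^ k i else 0 := by
  rw [nearN_F, finsetSum_coeff]
  exact sum_congr rfl fun _ _ => coeff_C_mul_X_pow _ _ _

theorem nearN_card {F : Type} [Field F] (w : F) : (nearN_F I c k a w).support.card ≤ I.card := by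
  refine (card_le_card (t := I.image (nearN_e I a)) fun n hn => ?_).trans card_image_le
  rw [Polynomial.mem_support_iff, nearN_coeff] at hn
  obtain ⟨i, h, e⟩ := exists_ne_zero_of_sum_ne_zero hn
  refine mem_image.2 ⟨i, h, ?_⟩
  by_contra c
  exact e (if_neg (Ne.symm c))

theorem nearN_term {F : Type} [Field F] {w : F} {g : ℕ} (hg : 0 < g) (hw : w ^ g = 1) (c k : ℤ) :
    IsIntegral ℤ ((c : F) * w ^ k) :=
  (isIntegral_algebraMap (R := ℤ) (A := F) (x := c)).mul (int_zpow hg hw k)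

theorem nearN_int {F : Type} [Field F] {w : F} {g : ℕ} (hg : 0 < g) (hw : w ^ g = 1) :
    IntC (nearN_F I c k a w) := by
  intro n
  rw [nearN_coeff]
  refine IsIntegral.sum _ fun i _ => ?_
  split_ifs
  · exact nearN_term hg hw _ _
  · exact isIntegral_zero

theorem nearN_norm {ω : ℂ} {g : ℕ} (hg : 0 < g) (hω : ω ^ g = 1) :
    ∑ i ∈ I, ‖(c i : ℂ) * ω ^ k i‖ = (nearN_H I c : ℝ) := by
  rw [nearN_H, Nat.cast_sum]
  refine sum_congr rfl fun i _ => ?_
  rw [norm_mul, twoA_norm_zpow hg hω, mul_one, Complex.norm_intCast, Nat.cast_natAbs, Int.cast_abs]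

theorem nearN_l1 {ω : ℂ} {g : ℕ} (hg : 0 < g) (hω : ω ^ g = 1) :
    l1 (nearN_F I c k a ω) ≤ nearN_H I c := by
  refine (l1_sum _ _).trans ?_
  rw [← nearN_norm I c k hg hω]
  exact sum_le_sum fun i _ => (l1_monomial _ _).le

theorem nearN_A_le {g : ℕ} {U : ℝ} (hU : (g : ℝ) ≤ U)
    (h : ∀ i ∈ I, (g : ℝ) * (|a i| + 1) ≤ U) : (g : ℝ) * nearN_A I a ≤ U := by
  have hg : (0 : ℝ) ≤ g := Nat.cast_nonneg g
  refine Finset.sup_induction (p := fun n : ℕ => (g : ℝ) * n ≤ U) ?_ ?_ fun i hi => ?_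
  · simpa using hg.trans hU
  · intro x hx y hy
    rcases le_total x y with e | e
    · rwa [sup_eq_right.2 e]
    · rwa [sup_eq_left.2 e]
  · have := h i hi
    rw [Nat.cast_natAbs]
    linarith

theorem nearN_big {g : ℕ} {ω : ℂ} (hg : 0 < g) (hω : IsPrimitiveRoot ω g)
    (hF : nearN_F I c k a ω ≠ 0) :
    (∃ n, 1 ≤ ‖(nearN_F I c k a ω).coeff n‖ * ((nearN_H I c : ℝ) + 1) ^ g) ∧
      ∀ α : ℂ, (nearN_F I c k a ω).IsRoot α → IsAlgebraic ℚ α := by
  classical
  obtain ⟨L, _, _, φ, ω', hφ, hrank, -⟩ := sField.1 g ω hg hω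
  have hω' : ω' ^ g = 1 := φ.injective (by rw [map_pow, hφ, hω.pow_eq_one, map_one])
  set f := nearN_F I c k a ω' with hf
  have hmap : f.map φ = nearN_F I c k a ω := by rw [hf, nearN_map, hφ]
  have hf0 : f ≠ 0 := by
    intro h
    rw [h, Polynomial.map_zero] at hmap
    exact hF hmap.symm
  constructor
  · refine ⟨f.natDegree, ?_⟩
    have hc : f.coeff f.natDegree ≠ 0 := leadingCoeff_ne_zero.2 hf0
    have h1 := (sNormP L).1 _ (nearN_int I c k a hg hω' _) hc
    have hb : ∀ σ : L →+* ℂ, ‖σ (f.coeff f.natDegree)‖ ≤ (nearN_H I c : ℝ) + 1 := by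
      intro σ
      have hσ : σ ω' ^ g = 1 := by rw [← map_pow, hω', map_one]
      rw [← coeff_map]
      refine (norm_coeff_le_l1 _ _).trans ?_
      rw [hf, nearN_map]
      linarith [nearN_l1 I c k a hg hσ]
    rw [← mul_prod_erase univ _ (mem_univ φ)] at h1
    rw [← hmap, coeff_map]
    refine h1.trans (mul_le_mul_of_nonneg_left ?_ (norm_nonneg _))
    have hH : (1 : ℝ) ≤ (nearN_H I c : ℝ) + 1 := le_add_of_nonneg_left (Nat.cast_nonneg _)
    calc ∏ σ ∈ univ.erase φ, ‖σ (f.coeff f.natDegree)‖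
        ≤ ∏ _σ ∈ univ.erase φ, ((nearN_H I c : ℝ) + 1) :=
          prod_le_prod (fun _ _ => norm_nonneg _) fun σ _ => hb σ
      _ = ((nearN_H I c : ℝ) + 1) ^ (univ.erase φ).card := prod_const _
      _ ≤ ((nearN_H I c : ℝ) + 1) ^ g := by
          refine pow_le_pow_right₀ hH ?_
          refine (card_erase_le).trans ?_
          rw [card_univ, NumberField.Embeddings.card, hrank]
          exact Nat.totient_le g
  · intro α hα
    let _ : Algebra L ℂ := φ.toAlgebra
    have _ : IsScalarTower ℚ L ℂ := IsScalarTower.of_algebraMap_eq fun q => by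
      change _ = φ _
      simp
    have h1 : IsAlgebraic L α := ⟨f, hf0, by
      rw [aeval_def, ← eval_map]
      change (f.map φ).eval α = 0
      rw [hmap]
      exact hα⟩
    exact h1.restrictScalars ℚ

theorem nearN_ne {ω X₀ : ℂ} (hX : X₀ ≠ 0) (h : fn I c k a ω X₀ ≠ 0) : nearN_F I c k a ω ≠ 0 := by
  intro h0
  have h5 := nearN_eval I c k a ω hX
  rw [h0, eval_zero] at h5
  exact mul_ne_zero (pow_ne_zero _ hX) h h5.symm

end

theorem sNearN : SNearN := by
  intro ι I c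
  set n : ℕ := I.card + 1 with hn
  set H : ℕ := nearN_H I c with hH
  refine ⟨H + 2 * n + 30 * n ^ 2 + 1, ?_⟩
  intro k a g ω X₀ s hg hω hX hgs hs hne hsmall
  by_contra hcon
  push Not at hcon
  have hX0 : X₀ ≠ 0 := by
    rintro rfl
    simp at hX
  have hg' : (1 : ℝ) ≤ g := by exact_mod_cast hg
  have hs1 : 1 ≤ s := by linarith
  have hA := nearN_A_le I a hgs hs
  set F := nearN_F I c k a ω with hF
  have hev : ‖F.eval X₀‖ = ‖fn I c k a ω X₀‖ := by
    rw [hF, nearN_eval I c k a ω hX0, norm_mul, norm_pow, hX, one_pow, one_mul]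
  obtain ⟨⟨i, hi⟩, -⟩ := nearN_big I c k a hg hω (nearN_ne I c k a hX0 hne)
  have hd0 : 0 < Real.exp (-s) := Real.exp_pos _
  have hd1 : Real.exp (-s) < 1 := by
    rw [← Real.exp_zero]
    exact Real.exp_lt_exp.2 (by linarith)
  have hfar : ∀ α, F.IsRoot α → Real.exp (-s) ≤ ‖α - X₀‖ := by
    intro α hα
    by_contra hlt
    push Not at hlt
    have hα0 : α ≠ 0 := by
      rintro rfl
      rw [zero_sub, norm_neg, hX] at hlt
      linarith
    refine hcon α hα0 hlt.le ?_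
    have := hα.eq_zero
    rw [hF, nearN_eval I c k a ω hα0] at this
    exact (mul_eq_zero.1 this).resolve_left (pow_ne_zero _ hα0)
  set b : ℕ := 2 * nearN_A I a + 1 with hb
  have key := sNear F n b X₀ (Real.exp (-s)) ((nearN_deg I c k a ω).trans (Nat.le_succ _))
    ((nearN_card I c k a ω).trans (Nat.le_succ _)) (by omega) (by omega) hX hd0 hd1.le hfar i
  rw [hev] at key
  have hn1 : (1 : ℝ) ≤ n := by exact_mod_cast (by omega : 1 ≤ n)
  have hb1 : (1 : ℝ) ≤ b := by exact_mod_cast (by omega : 1 ≤ b)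
  have hH0 : (0 : ℝ) ≤ H := Nat.cast_nonneg _
  have hbs : (b : ℝ) ≤ 3 * s := by
    have h0 : (0 : ℝ) ≤ nearN_A I a := Nat.cast_nonneg _
    rw [hb]
    push_cast
    nlinarith
  have e1 : ((H : ℝ) + 1) ^ g ≤ Real.exp (H * s) := by
    calc ((H : ℝ) + 1) ^ g ≤ Real.exp H ^ g := by
          gcongr
          exact Real.add_one_le_exp _
      _ = Real.exp (g * H) := (Real.exp_nat_mul _ _).symm
      _ ≤ Real.exp (H * s) := Real.exp_le_exp.2 (by nlinarith)
  have e2 : (2 : ℝ) ^ n ≤ Real.exp (n * s) := by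
    calc (2 : ℝ) ^ n ≤ Real.exp 1 ^ n := by
          gcongr
          linarith [Real.add_one_le_exp (1 : ℝ)]
      _ = Real.exp (n * 1) := (Real.exp_nat_mul _ _).symm
      _ ≤ Real.exp (n * s) := Real.exp_le_exp.2 (by nlinarith)
  have e3 : (10 * (n : ℝ) * b) ^ n ≤ Real.exp (30 * n ^ 2 * s) := by
    calc (10 * (n : ℝ) * b) ^ n ≤ Real.exp (10 * n * b) ^ n := by
          gcongr
          linarith [Real.add_one_le_exp (10 * (n : ℝ) * b)]
      _ = Real.exp (n * (10 * n * b)) := (Real.exp_nat_mul _ _).symm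
      _ ≤ Real.exp (30 * n ^ 2 * s) := by
          refine Real.exp_le_exp.2 ?_
          have := mul_le_mul_of_nonneg_left hbs (by positivity : (0 : ℝ) ≤ 10 * n ^ 2)
          linarith
  have e4 : Real.exp (-s) ^ n = Real.exp (-(n * s)) := by
    rw [← Real.exp_nat_mul]
    congr 1
    ring
  rw [div_pow, e4, ← mul_div_assoc, div_le_iff₀ (by positivity)] at key
  have e5 : Real.exp (-(n * s)) ≤
      ‖F.coeff i‖ * Real.exp (-(n * s)) * Real.exp (H * s) := by
    have : 1 ≤ ‖F.coeff i‖ * Real.exp (H * s) :=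
      hi.trans (mul_le_mul_of_nonneg_left e1 (norm_nonneg _))
    nlinarith [Real.exp_pos (-(n * s))]
  have e6 : ‖F.coeff i‖ * Real.exp (-(n * s)) * Real.exp (H * s) ≤
      Real.exp (n * s) * Real.exp (-(((H + 2 * n + 30 * n ^ 2 + 1 : ℕ) : ℝ) * s)) *
        Real.exp (30 * n ^ 2 * s) * Real.exp (H * s) := by
    refine mul_le_mul_of_nonneg_right (key.trans ?_) (Real.exp_pos _).le
    gcongr
  have e7 := e5.trans e6
  rw [← Real.exp_add, ← Real.exp_add, ← Real.exp_add, Real.exp_le_exp] at e7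
  push_cast at e7
  nlinarith

/-- Liouville's bound for the second sum at a root of the first. -/
theorem nearN_low {ι ι' : Type} (I : Finset ι) (I' : Finset ι') (c k a : ι → ℤ)
    (c' k' a' : ι' → ℤ) {g : ℕ} {ω X₀ α : ℂ} {U : ℝ} {h : ℕ} (hh1 : 1 ≤ h)
    (hhP : nearN_H I c ≤ h) (hhQ : nearN_H I' c' ≤ h) (hg : 0 < g) (hω : IsPrimitiveRoot ω g)
    (hX : X₀ ≠ 0) (hA : (g : ℝ) * nearN_A I a ≤ U) (hA' : (g : ℝ) * nearN_A I' a' ≤ U)
    (hP0 : fn I c k a ω X₀ ≠ 0) (hα : α ≠ 0) (hPα : fn I c k a ω α = 0)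
    (hQα : fn I' c' k' a' ω α ≠ 0) :
    1 ≤ ‖∑ i ∈ I', (c' i : ℂ) * ω ^ k' i * α ^ nearN_e I' a' i‖ * Real.exp (4 * h * U) := by
  classical
  have hF0 := nearN_ne I c k a hX hP0
  have hFα : (nearN_F I c k a ω).eval α = 0 := by rw [nearN_eval I c k a ω hα, hPα, mul_zero]
  have halg := (nearN_big I c k a hg hω hF0).2 α hFα
  obtain ⟨L, _, _, φ, ω', hω', hrk, -⟩ := sField.1 g ω hg hω
  obtain ⟨K, _, _, _, φ', p', q', hφ', hp', hq', hdet⟩ := sField.2 L φ α α halg halg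
  have hpq : q' = p' := φ'.injective (by rw [hp', hq'])
  have hω'g : ω' ^ g = 1 := φ.injective (by rw [map_pow, hω', hω.pow_eq_one, map_one])
  have hhR : (1 : ℝ) ≤ h := by exact_mod_cast hh1
  set f : L[X] := nearN_F I c k a ω' with hf
  have hfφ : f.map φ = nearN_F I c k a ω := by rw [hf, nearN_map, hω']
  have hf0 : f ≠ 0 := by
    intro h0
    rw [h0, Polynomial.map_zero] at hfφ
    exact hF0 hfφ.symm
  have hroot : aeval p' f = 0 := by
    apply φ'.injective
    have hc : φ'.comp (algebraMap L K) = φ := RingHom.ext hφ'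
    rw [map_zero, aeval_def, hom_eval₂, hc, hp', ← eval_map, hfφ, hFα]
  obtain ⟨-, hN2, hN3⟩ := sNormP L
  obtain ⟨T, hT⟩ := hN2 f (nearN_int I c k a hg hω'g)
  have hdvd : ∏ σ : K →+* ℂ, (X - C (σ p')) ∣ cx T := by
    rw [hT]
    exact hN3 K f p' hf0 hroot fun σ τ h5 h6 => hdet σ τ h5 h6 (by rw [hpq]; exact h6)
  have hcT0 : cx T ≠ 0 := by
    rw [hT]
    exact Finset.prod_ne_zero_iff.mpr fun σ _ => (Polynomial.map_ne_zero_iff σ.injective).mpr hf0
  have hT0 : T ≠ 0 := by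
    rintro rfl
    exact hcT0 (by simp [cx])
  have hcardL : Fintype.card (L →+* ℂ) ≤ g := by
    rw [NumberField.Embeddings.card, hrk]
    exact Nat.totient_le g
  have hdegT : (cx T).natDegree ≤ g * (2 * nearN_A I a) := by
    rw [hT]
    refine le_trans (natDegree_prod_le _ _) ?_
    calc ∑ σ : L →+* ℂ, (f.map σ).natDegree ≤ ∑ _σ : L →+* ℂ, 2 * nearN_A I a :=
          Finset.sum_le_sum fun σ _ => le_trans natDegree_map_le (nearN_deg _ _ _ _ _)
      _ = Fintype.card (L →+* ℂ) * (2 * nearN_A I a) := by simp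
      _ ≤ _ := Nat.mul_le_mul_right _ hcardL
  have hrkK : finrank ℚ K ≤ g * (2 * nearN_A I a) := by
    refine le_trans ?_ (le_trans (natDegree_le_of_dvd hdvd hcT0) hdegT)
    rw [natDegree_prod_of_monic _ _ fun σ _ => monic_X_sub_C _]
    simp [NumberField.Embeddings.card]
  have hM : (cx T).mahlerMeasure ≤ (h : ℝ) ^ g := by
    rw [hT, twoA_mahler_prod]
    calc ∏ σ : L →+* ℂ, (f.map σ).mahlerMeasure ≤ ∏ _σ : L →+* ℂ, (h : ℝ) := by
          refine Finset.prod_le_prod (fun σ _ => mahlerMeasure_nonneg _) fun σ _ => ?_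
          have hσ : (σ ω') ^ g = 1 := by rw [← map_pow, hω'g, map_one]
          rw [hf, nearN_map]
          refine (mahler_le_l1 _).trans ((nearN_l1 I c k a hg hσ).trans ?_)
          exact_mod_cast hhP
      _ = (h : ℝ) ^ Fintype.card (L →+* ℂ) := by simp
      _ ≤ (h : ℝ) ^ g := pow_le_pow_right₀ hhR hcardL
  set w : K := algebraMap L K ω' with hw
  have hwg : w ^ g = 1 := by rw [hw, ← map_pow, hω'g, map_one]
  have hwφ : φ' w = ω := by rw [hw, hφ', hω']
  have hval : φ' (∑ i ∈ I', ((c' i : K) * w ^ k' i) * p' ^ nearN_e I' a' i * p' ^ 0) =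
      ∑ i ∈ I', (c' i : ℂ) * ω ^ k' i * α ^ nearN_e I' a' i := by
    simp [map_sum, hwφ, hp']
  have hne : ∑ i ∈ I', ((c' i : K) * w ^ k' i) * p' ^ nearN_e I' a' i * p' ^ 0 ≠ 0 := by
    intro h0
    rw [h0, map_zero, nearN_sum I' c' k' a' ω hα] at hval
    exact mul_ne_zero (pow_ne_zero _ hα) hQα hval.symm
  have key := sLV K φ' ι' I' (fun i => (c' i : K) * w ^ k' i) (nearN_e I' a')
    (fun _ => 0) p' p' (2 * nearN_A I' a') 0 h T T
    (fun i hi => ⟨nearN_term hg hwg _ _, nearN_e_le I' a' hi, le_rfl⟩) hhR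
    (fun σ => by
      have hσ : (σ w) ^ g = 1 := by rw [← map_pow, hwg, map_one]
      have h6 : (nearN_H I' c' : ℝ) ≤ h := by exact_mod_cast hhQ
      simpa [map_zpow₀] using (nearN_norm I' c' k' hg hσ).le.trans h6)
    hT0 hT0 hdvd hdvd hne
  rw [hval, pow_zero, mul_one] at key
  have b1 : (h : ℝ) ^ finrank ℚ K ≤ Real.exp (h * (2 * U)) := by
    refine twoA_pow_le_exp _ _ _ (by positivity) ?_
    have : (finrank ℚ K : ℝ) ≤ g * (2 * nearN_A I a) := by exact_mod_cast hrkK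
    linarith
  have b2 : (cx T).mahlerMeasure ^ (2 * nearN_A I' a') ≤ Real.exp (h * (2 * U)) := by
    refine le_trans (pow_le_pow_left₀ (mahlerMeasure_nonneg _) hM _) ?_
    rw [← pow_mul]
    refine twoA_pow_le_exp _ _ _ (by positivity) ?_
    push_cast
    linarith
  refine le_trans key ?_
  rw [mul_assoc]
  refine mul_le_mul_of_nonneg_left ?_ (norm_nonneg _)
  calc (h : ℝ) ^ finrank ℚ K * (cx T).mahlerMeasure ^ (2 * nearN_A I' a')
      ≤ Real.exp (h * (2 * U)) * Real.exp (h * (2 * U)) :=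
        mul_le_mul b1 b2 (pow_nonneg (mahlerMeasure_nonneg _) _) (Real.exp_pos _).le
    _ = Real.exp (4 * h * U) := by rw [← Real.exp_add]; congr 1; ring

theorem sTwoN : STwoN := by
  intro ι ι' I I' c c'
  set h : ℕ := nearN_H I c + nearN_H I' c' + 1 with hh
  set C₂ : ℕ := 5 * h + 10 with hC₂
  refine ⟨C₂, ?_⟩
  intro k a k' a' g ω X₀ α U hg hω hX hgU hU hU' hP0 hα hPα hαX hQs
  have hg1 : (1 : ℝ) ≤ g := by exact_mod_cast hg
  have hU1 : 1 ≤ U := by linarith
  have hX0 : X₀ ≠ 0 := by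
    rintro rfl
    simp at hX
  have hC₂R : (C₂ : ℝ) = 5 * h + 10 := by rw [hC₂]; push_cast; ring
  have hh0 : (0 : ℝ) ≤ h := Nat.cast_nonneg _
  have hs0 : 0 ≤ (C₂ : ℝ) * U := by positivity
  have hA := nearN_A_le I a hgU hU
  have hA' := nearN_A_le I' a' hgU hU'
  by_contra hQα
  have key := nearN_low I I' c k a c' k' a' (h := h) (by omega) (by omega) (by omega) hg hω hX0
    hA hA' hP0 hα hPα hQα
  have hωg := hω.pow_eq_one
  have hα2 : ‖α‖ ≤ 2 := by
    have e1 : Real.exp (-((C₂ : ℝ) * U)) ≤ 1 := Real.exp_le_one_iff.mpr (by linarith)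
    have e2 : ‖α‖ ≤ ‖α - X₀‖ + ‖X₀‖ := by simpa using norm_add_le (α - X₀) X₀
    linarith
  have hm : ((2 * nearN_A I' a' : ℕ) : ℝ) ≤ 2 * U := by
    have h0 : (0 : ℝ) ≤ nearN_A I' a' := Nat.cast_nonneg _
    push_cast
    nlinarith
  have hX1 : ‖∑ i ∈ I', (c' i : ℂ) * ω ^ k' i * X₀ ^ nearN_e I' a' i‖ ≤ Real.exp (-(C₂ * U)) := by
    rw [nearN_sum I' c' k' a' ω hX0, norm_mul, norm_pow, hX, one_pow, one_mul]
    exact hQs
  have hdiff : ‖∑ i ∈ I', (c' i : ℂ) * ω ^ k' i * α ^ nearN_e I' a' i -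
      ∑ i ∈ I', (c' i : ℂ) * ω ^ k' i * X₀ ^ nearN_e I' a' i‖ ≤
      h * (Real.exp (4 * (2 * U)) * Real.exp (-(C₂ * U))) := by
    rw [← Finset.sum_sub_distrib]
    refine le_trans (norm_sum_le _ _) ?_
    calc ∑ i ∈ I', ‖(c' i : ℂ) * ω ^ k' i * α ^ nearN_e I' a' i -
          (c' i : ℂ) * ω ^ k' i * X₀ ^ nearN_e I' a' i‖
        ≤ ∑ i ∈ I', ‖(c' i : ℂ) * ω ^ k' i‖ *
          (Real.exp (4 * (2 * U)) * Real.exp (-(C₂ * U))) := by
          refine Finset.sum_le_sum fun i hi => ?_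
          rw [← mul_sub, norm_mul]
          refine mul_le_mul_of_nonneg_left ?_ (norm_nonneg _)
          refine le_trans (twoA_pow_sub α X₀ hα2 hX.le _) ?_
          refine mul_le_mul ?_ hαX (norm_nonneg _) (Real.exp_pos _).le
          refine twoA_pow_le_exp 4 _ _ (by norm_num) (le_trans ?_ hm)
          exact_mod_cast nearN_e_le I' a' hi
      _ = (nearN_H I' c' : ℝ) * (Real.exp (4 * (2 * U)) * Real.exp (-(C₂ * U))) := by
          rw [← Finset.sum_mul, nearN_norm I' c' k' hg hωg]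
      _ ≤ _ := by
          refine mul_le_mul_of_nonneg_right ?_ (by positivity)
          have : nearN_H I' c' ≤ h := by omega
          exact_mod_cast this
  have hhe : (h : ℝ) ≤ Real.exp (h * U) := by
    have := Real.add_one_le_exp ((h : ℝ) * U)
    nlinarith
  have hsum : ‖∑ i ∈ I', (c' i : ℂ) * ω ^ k' i * α ^ nearN_e I' a' i‖ ≤
      2 * Real.exp ((h + 8 - C₂) * U) := by
    refine le_trans (norm_le_norm_sub_add _
      (∑ i ∈ I', (c' i : ℂ) * ω ^ k' i * X₀ ^ nearN_e I' a' i)) ?_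
    have e1 : Real.exp (-((C₂ : ℝ) * U)) ≤ Real.exp ((h + 8 - C₂) * U) :=
      Real.exp_le_exp.mpr (by nlinarith)
    have e2 : (h : ℝ) * (Real.exp (4 * (2 * U)) * Real.exp (-(C₂ * U))) ≤
        Real.exp ((h + 8 - C₂) * U) := by
      calc (h : ℝ) * (Real.exp (4 * (2 * U)) * Real.exp (-(C₂ * U)))
          ≤ Real.exp (h * U) * (Real.exp (4 * (2 * U)) * Real.exp (-(C₂ * U))) := by gcongr
        _ = _ := by rw [← Real.exp_add, ← Real.exp_add]; congr 1; ring
    linarith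
  have hfin : 2 * Real.exp ((h + 8 - C₂) * U) * Real.exp (4 * h * U) < 1 := by
    rw [mul_assoc, ← Real.exp_add]
    have e1 : Real.exp ((h + 8 - C₂) * U + 4 * h * U) ≤ Real.exp (-2) :=
      Real.exp_le_exp.mpr (by rw [hC₂R]; nlinarith)
    have e2 : Real.exp (-2) * Real.exp 2 = 1 := by rw [← Real.exp_add]; simp
    have e3 := Real.add_one_le_exp (2 : ℝ)
    have e4 := Real.exp_pos (-2 : ℝ)
    nlinarith
  have := mul_le_mul_of_nonneg_right hsum (Real.exp_pos (4 * h * U)).le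
  linarith

end Pool.Agent.MP_c1891a_nt.G43
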